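import Pool.Agent.LibPCTL.Exact

/-!
The definitions of Markov chains, PCTL formulas and their semantics are in
`Pool.Agent.LibPCTL.Defs`, those of parameterized formulas with rational constants in
`Pool.Agent.LibPCTL.RatDefs`; the proof is in `Pool.Agent.LibPCTL.LargeModels` and
`Pool.Agent.LibPCTL.Exact`.
-/

namespace Pool.Agent.Results.MP_f57a76_lc.LargeModels

open Pool.Agent.LibPCTL

/-- There is a parameterized PCTL formula `φ` with rational constants such that for every `n` there
is a rational `κ ∈ (0,1)` for which `φ(κ)` has a finite model with exactly `n + 9` states, while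
every model of `φ(κ)` has at least `n + 9` states. -/
theorem result :
    ∃ φ : RatParamPCTL, ∀ n : ℕ, ∃ κ : Set.Icc (0 : ℚ) 1, 0 < (κ : ℚ) ∧ (κ : ℚ) < 1 ∧
      (∃ M : MarkovChain, Finite M.S ∧ Nat.card M.S = n + 9 ∧ M.IsModel (φ.subst κ)) ∧
      (∀ M : MarkovChain, M.IsModel (φ.subst κ) → (n : ℕ∞) + 9 ≤ ENat.card M.S) :=
  exists_exact_models

end Pool.Agent.Results.MP_f57a76_lc.LargeModels
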